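import Pool.Agent.W2helper58.SS.Stm
import Pool.Agent.W2helper86.GF.Gen

/-!
# Project SS, piece B (`P_gen2`)
-/

set_option autoImplicit false

namespace Pool.Agent.W2helper95.SS

open Pool.Agent.NPC Pool.Agent.H620R2.Gauge Pool.Agent.W2helper58.GF Pool.Agent.W2helper58.SS

theorem log_eq_size (n : ℕ) : Nat.log 2 n = Nat.size n - 1 := by
  rcases Nat.eq_zero_or_pos n with rfl | hn
  · simp
  · apply le_antisymm
    · have h1 : 2 ^ Nat.log 2 n ≤ n := Nat.pow_log_le_self 2 hn.ne'
      have h2 : Nat.log 2 n < Nat.size n := Nat.lt_size.2 h1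
      omega
    · have h1 : n < 2 ^ (Nat.log 2 n + 1) := Nat.lt_pow_succ_log_self (by norm_num) n
      have h2 : Nat.size n ≤ Nat.log 2 n + 1 := Nat.size_le.2 h1
      omega

theorem poly_sd (p q : ℕ) : Poly (fun x : List Bool => un (sd p q x.length)) := by
  have h1 : UPoly (fun x : List Bool => x.length ^ p) := by
    have h := UPoly.eval (UPoly.length (NPC.Poly.id (α := List Bool))) (Polynomial.X ^ p)
    simpa using h
  have h2 : UPoly (fun x : List Bool => (Nat.bits (x.length ^ p)).length) :=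
    UPoly.length (NPC.Poly.natBits h1.toPoly)
  have h3 : UPoly (fun x : List Bool => (Nat.bits (x.length ^ p)).tail.length) :=
    UPoly.length (NPC.Poly.tail (NPC.Poly.natBits h1.toPoly))
  have h4 : UPoly (fun x : List Bool => Nat.log 2 (x.length ^ p)) := by
    have e : (fun x : List Bool => Nat.log 2 (x.length ^ p)) =
        fun x : List Bool => (Nat.bits (x.length ^ p)).tail.length := by
      funext x
      rw [log_eq_size, List.length_tail, Nat.size_eq_bits_len]
    rw [e]
    exact h3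
  have h5 : UPoly (fun x : List Bool => sd p q x.length) :=
    UPoly.of_le (NPC.Poly.div h4.toPoly (NPC.Poly.const q)) h4 fun x => Nat.div_le_self _ _
  exact Gn.poly_rep h5 true

theorem sd_le (p q m : ℕ) (hq : 0 < q) (hm : 1 ≤ m) :
    ((sd p q m : ℕ) : ℝ) ≤ (p : ℝ) / q * Real.logb 2 m := by
  have hq0 : (0 : ℝ) < q := by exact_mod_cast hq
  have hm0 : (0 : ℝ) < m := by exact_mod_cast hm
  have h1 : 2 ^ Nat.log 2 (m ^ p) ≤ m ^ p := Nat.pow_log_le_self 2 (by positivity)
  have h2 : ((Nat.log 2 (m ^ p) : ℕ) : ℝ) ≤ p * Real.logb 2 m := by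
    have e : (p : ℝ) * Real.logb 2 m = Real.logb 2 ((m : ℝ) ^ p) := by
      rw [Real.logb_pow]
    rw [e, Real.le_logb_iff_rpow_le (by norm_num) (by positivity), Real.rpow_natCast]
    exact_mod_cast h1
  have h3 : ((sd p q m : ℕ) : ℝ) ≤ ((Nat.log 2 (m ^ p) : ℕ) : ℝ) / q := by
    unfold sd
    exact Nat.cast_div_le
  calc ((sd p q m : ℕ) : ℝ) ≤ ((Nat.log 2 (m ^ p) : ℕ) : ℝ) / q := h3
    _ ≤ p * Real.logb 2 m / q := by
        apply div_le_div_of_nonneg_right h2 hq0.le
    _ = (p : ℝ) / q * Real.logb 2 m := by ring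

theorem sd_lt (p q : ℕ) : ∀ᶠ m : ℕ in Filter.atTop, sd p q m < m := by
  filter_upwards [Gn.size_lt p, Filter.eventually_ge_atTop 1] with m hm hm1
  refine lt_of_le_of_lt ?_ hm
  unfold sd
  refine (Nat.div_le_self _ _).trans ?_
  have h1 : m < 2 ^ Nat.size m := Nat.lt_size_self m
  have h2 : m ^ p ≤ 2 ^ (p * Nat.size m) := by
    rw [mul_comm, pow_mul]
    exact Nat.pow_le_pow_left h1.le p
  calc Nat.log 2 (m ^ p) ≤ Nat.log 2 (2 ^ (p * Nat.size m)) := Nat.log_mono_right h2
    _ = p * Nat.size m := Nat.log_pow (by norm_num) _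

theorem p_gen2 : P_gen2 := by
  intro p q A hq h
  refine ⟨fun x => un (sd p q x.length), fun y => (Gn.qry y).map A,
    IsFP.of_poly (poly_sd p q),
    IsFP.tt (H := fun p : List Bool × List Bool => p.2) Gn.poly_qry (NPC.Poly.snd NPC.Poly.id),
    ?_, ?_⟩
  · intro m s hs
    simp only [Gn.qry_eq]
    simp
  · have hlen : ∀ m : ℕ, (un (sd p q (un m).length)).length = sd p q m := by
      intro m
      simp
    filter_upwards [h, sd_lt p q, Filter.eventually_ge_atTop 1] with m hm hlt hm1
    simp only [hlen]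
    refine ⟨sd_le p q m hq hm1, hlt, ?_⟩
    intro C hC
    by_contra hcon
    apply hm
    refine ⟨C, hC, ?_⟩
    rw [not_le] at hcon
    unfold pr at hcon
    have key : ∀ s : Fin (sd p q m) → Bool,
        (Gn.qry (pairBits (un m) (List.ofFn s))).map A =
          List.ofFn (fun j : Fin m => A (sadr (List.ofFn s) m j)) := by
      intro s
      rw [Gn.qry_eq]
      apply List.ext_getElem
      · simp
      · intro i h1 h2
        simp
    simp only [key] at hcon
    exact hcon

end Pool.Agent.W2helper95.SS
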