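import Pool.Agent.W2helper58.SS.Stm

/-!
# Project SS, piece D (`P_local2`)
-/

set_option autoImplicit false

namespace Pool.Agent.W2helper95.SS

open Pool.Agent.NPC Pool.Agent.H620R2.Gauge Pool.Agent.W2helper58.GF Pool.Agent.W2helper58.SS

theorem two_pow_le {l m c : ℕ} {r : ℚ} (hc : r ≤ c) (hm : 1 ≤ m)
    (h : (l : ℝ) ≤ (r : ℝ) * Real.logb 2 (m : ℕ)) : 2 ^ l ≤ m ^ c := by
  have hm0 : (0 : ℝ) < m := by exact_mod_cast hm
  have h1 : (0 : ℝ) ≤ Real.logb 2 m := Real.logb_nonneg (by norm_num) (by exact_mod_cast hm)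
  have h2 : (r : ℝ) ≤ c := by exact_mod_cast hc
  have h3 : (l : ℝ) ≤ c * Real.logb 2 m := h.trans (mul_le_mul_of_nonneg_right h2 h1)
  have h4 : (c : ℝ) * Real.logb 2 m = Real.logb 2 ((m : ℝ) ^ c) := by
    rw [Real.logb_pow]
  rw [h4, Real.le_logb_iff_rpow_le (by norm_num) (by positivity), Real.rpow_natCast] at h3
  exact_mod_cast h3

theorem p_local2 : P_local2 := by
  classical
  intro D G r
  obtain ⟨c, hc⟩ : ∃ c : ℕ, r ≤ c := exists_nat_ge r
  obtain ⟨qD, hqD⟩ := D.out_local
  obtain ⟨qG, hqG⟩ := G.out_local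
  set mP : Polynomial ℕ := Polynomial.X + Polynomial.C 1 with hmP
  set L : Polynomial ℕ := Polynomial.C 2 * mP + Polynomial.C 1 + mP ^ c with hL
  refine ⟨D.p.comp mP + mP ^ c * G.p.comp L + qD.comp mP + qG.comp L, ?_⟩
  intro a B
  set m := a + 1 with hm
  have hmle : mP.eval a = m := by
    rw [hmP, hm]
    simp only [Polynomial.eval_add, Polynomial.eval_C, Polynomial.eval_X]
  have hun : (un m).length = m := List.length_replicate
  obtain ⟨Q₁, h1, h2, h3⟩ := hqD B (un m)
  rw [hun] at h1 h2
  set l := seedLen D m B with hl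
  have hsl : ∀ B' : Oracle, (∀ q ∈ Q₁, B' q = B q) → seedLen D m B' = l := by
    intro B' hB'
    rw [hl, seedLen, seedLen, h3 B' hB']
  simp only [Polynomial.eval_comp, Polynomial.eval_add, Polynomial.eval_mul,
    Polynomial.eval_pow, hmle]
  by_cases hcl : (l : ℝ) ≤ (r : ℝ) * Real.logb 2 (m : ℕ)
  · -- the seeds
    have hp := two_pow_le hc (show 1 ≤ m by omega) hcl
    have hLle : 2 * m + 1 + l ≤ L.eval a := by
      have h5 : l < 2 ^ l := Nat.lt_two_pow_self
      rw [hL]
      simp only [Polynomial.eval_add, Polynomial.eval_mul, Polynomial.eval_C,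
        Polynomial.eval_pow, hmle]
      omega
    have hG : ∀ s : Fin l → Bool, ∃ Q : Finset (List Bool), Q.card ≤ G.p.eval (L.eval a) ∧
        (∀ q ∈ Q, q.length ≤ qG.eval (L.eval a)) ∧
        ∀ B' : Oracle, (∀ q ∈ Q, B' q = B q) →
          G.out B' (pairBits (un m) (List.ofFn s)) = G.out B (pairBits (un m) (List.ofFn s)) := by
      intro s
      obtain ⟨Q, g1, g2, g3⟩ := hqG B (pairBits (un m) (List.ofFn s))
      have hlen : (pairBits (un m) (List.ofFn s)).length ≤ L.eval a := by
        rw [length_pairBits, hun, List.length_ofFn]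
        exact hLle
      have eG1 := eval_mono G.p hlen
      have eG2 := eval_mono qG hlen
      exact ⟨Q, g1.trans eG1, fun q hq => (g2 q hq).trans eG2, g3⟩
    choose QG g1 g2 g3 using hG
    refine ⟨Q₁ ∪ Finset.univ.biUnion QG, ?_, ?_, ?_⟩
    · refine (Finset.card_union_le _ _).trans ?_
      have h4 : (Finset.univ.biUnion QG).card ≤ m ^ c * G.p.eval (L.eval a) := by
        refine Finset.card_biUnion_le.trans ?_
        refine (Finset.sum_le_card_nsmul _ _ _ fun s _ => g1 s).trans ?_
        rw [smul_eq_mul, Finset.card_univ]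
        refine Nat.mul_le_mul_right _ ?_
        rw [Fintype.card_fun, Fintype.card_bool, Fintype.card_fin]
        exact hp
      omega
    · intro q hq
      rcases Finset.mem_union.1 hq with hq | hq
      · have := h2 q hq
        omega
      · obtain ⟨s, -, hs⟩ := Finset.mem_biUnion.1 hq
        have := g2 s q hs
        omega
    · intro B' hB'
      have h4 : seedLen D m B' = l := hsl B' fun q hq => hB' q (Finset.mem_union_left _ hq)
      unfold rv
      rw [← hm, h4, ← hl, if_pos hcl, if_pos hcl]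
      congr 1
      have key : ∀ s : List Bool, s.length = l →
          G.out B' (pairBits (un m) s) = G.out B (pairBits (un m) s) := by
        intro s hs
        obtain ⟨s', rfl⟩ : ∃ s' : Fin l → Bool, List.ofFn s' = s := by
          refine ⟨fun i => s[i.val]'(by rw [hs]; exact i.2), ?_⟩
          apply List.ext_getElem
          · simp [hs]
          · intro i h1 h2
            simp
        exact g3 s' B' fun q hq => hB' q (Finset.mem_union_right _
            (Finset.mem_biUnion.2 ⟨_, Finset.mem_univ _, hq⟩))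
      ext u
      constructor
      · rintro ⟨s, hs, rfl⟩
        exact ⟨s, hs, by rw [key s hs]⟩
      · rintro ⟨s, hs, rfl⟩
        exact ⟨s, hs, by rw [key s hs]⟩
  · refine ⟨Q₁, by omega, ?_, ?_⟩
    · intro q hq
      have := h2 q hq
      omega
    · intro B' hB'
      have h4 : seedLen D m B' = l := hsl B' hB'
      unfold rv
      rw [← hm, h4, ← hl, if_neg hcl, if_neg hcl]

end Pool.Agent.W2helper95.SS
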